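import Pool.Agent.helper748_mc.PenThm

set_option autoImplicit false

/-! # The local strong monodromy conjecture for the germs `∑ y_j f_j(x₀, x₁, x₂) = 0`, V

Here the `f_j` are forms of the same degree `d` in the three variables `x₀, x₁, x₂`, and the `y_j`
are further variables: `F = univ f = ∑ y_j f_j(x₀, x₁, x₂)`, a germ at the origin. The local
topological zeta function of `F` is `Z_{I, 0} / (s + 1)`, where `Z_{I, 0} = Z_J / (d s + 3)` is
the local topological zeta function at the origin of the ideal `I = (f_j)`, and `Z_J` is computed
by blowing up points from the ideal sheaf `J` which `I` defines on the projective plane; see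
`ConeFormZeta`, `ConeZeta` (in `Pool.Agent.W574.CN.Defs`), `PlaneZeta` and `LocalZeta` (in
`Pool.Agent.W574.SM.ZetaDefs`). The resolution which is described there gives the same rational
function for the global and for the local zeta function. All poles except possibly `-3/d` are
known to be roots of the local `b_F`. We prove `b_F(-3/d) = 0` if some linear combination `g` of
the `f_j` is in some linear coordinates of the form `(h / r) L ^ j G(a L ^ k, b)`, `L = l x₂ + m`,
with `h`, `r`, `a`, `b`, `l`, `m` in `x₀`, `x₁`, and `G(u, v)` a form which is not divisible by `u`
or `v` and has at least two different linear factors, such that `h r a b l` has enough roots,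
counted as in `PencilForm`.

Geometrically: the curve `g = 0` (with its multiplicities) is cut by the lines through some point
`(0 : 0 : 1)` in divisors of the affine lines (the lines minus that point) which are, apart from
finitely many lines, isomorphic to each other; `L = 0` passes through the fixed points, if there are
symmetries. If there are enough special lines, counted as in `PencilForm`, then `b(-3/d) = 0`.

The proof of `b(-3/d) = 0`, for a form `g` in the class (`g` is the linear combination):

* `ex_main`: a functional equation gives an identity
  `b(c) g ^ (K + 1) = ∑ (g ∂_i v_i(c) + (c - K) (∂_i g) v_i(c))` with forms `v_i(c)` of the degree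
  `d K + 1` which depend polynomially on `c`; so `b(c) g ^ c` is the divergence of `v(c) g ^ (c - K)`;
* `exact_two`: for `c = -3/d` this gives such an identity in the two variables `x₀`, `x₂`;
* `line_not_exact`, `exists_penSys`: with `W = a L ^ k / b` and `G(W, 1) = γ(W)`, the one-form
  `W ^ θ γ(W) ^ (-3/d) dW / W` is not the differential of a function
  `W ^ θ γ(W) ^ (-3/d) κ(W)`, `κ` rational with poles at `0` and the roots of `γ` (count of zeros); so
  there is a linear functional on the twisted one-forms on the `W`-line which vanishes on the exact
  forms and not on this one;
* `gpsi`, `Gn`, `Gn_G`, `Gn_exact`: it defines integrals of `L ^ i g ^ (-3/d - K)` over the line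
  `x₀ = t`, `x₁ = 1`, which vanish on derivatives with respect to `L`;
* `HasPD`, `Gn_deriv`, `zL_poly`, `zL_deriv`, `iso_eq`: their derivatives with respect to `t`; this
  gives a differential equation of the first order with a solution `κ / (h r a b l) ^ M`, `κ` a
  polynomial;
* `LogF`, `ord_ode`: the order of the solution at each root of `h r a b l`; `ode_count_gen`: the sum
  of these orders would be greater than the degree of `κ`. (So the integral of `g ^ (-3/d) Ω` over
  the lines through `(0 : 0 : 1)` is a form `∏ (t - t_i) ^ e_i dt` which is not exact.) -/

namespace Pool.Agent.Results.MP_6163c8_ag.PencilGerms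

open MvPolynomial Pool.Agent.W574.CN Pool.Agent.W574.MO Pool.Agent.W574.HS Pool.Agent.W574.SM
  Pool.Agent.H628R4.TP Pool.Agent.Helper748.MC

/-- Let `f_j` be forms of the same degree `d` in three variables, such that some linear combination `g
= ∑ lam_j f_j` satisfies `PencilForm d g`, let `b` be a polynomial which satisfies a functional
equation `b(s) F ^ s = P(s) F ^ (s + 1)`, where `P(s)` is a differential operator with formal
power series coefficients (in particular the local Bernstein-Sato polynomial of `F = ∑ y_j f_j` at
the origin), and let `Z` be the local topological zeta function of `F` at the origin. Then every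
pole of `Z` is a root of `b`. -/
theorem result {ι : Type} [Fintype ι] (f : ι → MvPolynomial (Fin 3) ℂ) (d : ℕ)
    (hf : ∀ j, (f j).IsHomogeneous d) (lam : ι → ℂ) (h : PencilForm d (lcomb f lam))
    (b : Polynomial ℂ) (hb : IsLocalBFunction (univ f) b) (Z : RatFunc ℂ)
    (hZ : ConeFormZeta f d Z) (s₀ : ℂ) (hs₀ : Z.denom.eval s₀ = 0) : b.eval s₀ = 0 := by
  classical
  have hne := exists_ne_of_lcomb (not_exact_pencil (lcomb_homog hf lam) h).1
  have hb' := bfun_of_local f d hf hne b hb
  exact top_form_of f d h.pos hf hne b hb' (pen_form f d hf lam h b hb') Z hZ s₀ hs₀

end Pool.Agent.Results.MP_6163c8_ag.PencilGerms
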