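import Pool.Agent.helper748_tp.TameThm

set_option autoImplicit false

/-! # The local strong monodromy conjecture for the germs `∑ y_j f_j(x₀, x₁, x₂) = 0`, VI

Here the `f_j` are forms of the same degree `d` in the three variables `x₀, x₁, x₂`, and the `y_j`
are further variables: `F = univ f = ∑ y_j f_j(x₀, x₁, x₂)`, a germ at the origin. The local
topological zeta function of `F` is `Z_{I, 0} / (s + 1)`, where `Z_{I, 0} = Z_J / (d s + 3)` is
the local topological zeta function at the origin of the ideal `I = (f_j)`, and `Z_J` is computed
by blowing up points from the ideal sheaf `J` which `I` defines on the projective plane; see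
`ConeFormZeta`, `ConeZeta` (in `Pool.Agent.W574.CN.Defs`), `PlaneZeta` and `LocalZeta` (in
`Pool.Agent.W574.SM.ZetaDefs`). The resolution which is described there gives the same rational
function for the global and for the local zeta function. All poles except possibly `-3/d` are
known to be roots of the local `b_F`. We prove `b_F(-3/d) = 0` if some linear combination `g₀` of
the `f_j` has a tame projection from a point `P`, see `TameProjection` (in
`Pool.Agent.helper748_tp.T10`) and `GoodLine` (in `Pool.Agent.helper748_tp.T5`).

Geometrically (`P` may lie on the curve or not): for all lines through `P` except for finitely many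
the curve meets the line in `ρ` different points outside of `P`. On a line where one of the `ρ`
points moves to `P` the others are different. Near the other exceptional lines (minus `P`) the curve
has a logarithmic vector field `(t - t₀) e ∂_t + b ∂_x`, `e(t₀) ≠ 0`; for example simple tangents and
ordinary double points are allowed. Moreover the curve has at least three different tangent lines at
`P`, or there is no linear vector field `θ` of trace `0` with `θ f = f`, for example because the curve
has only finitely many linear automorphisms. The form need not be reduced, and the singularity at `P`
need not be quasi-homogeneous.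

By `SimpleProjection.tame` (in `Pool.Agent.helper748_tp.T11`) the class contains the reduced curves
which are smooth outside of a point `P` with at least three different tangent lines such that the
discriminant of the projection from `P` is simple, under mild conditions at the tangent lines. An
example is `x₂ ^ 3 (x₀ ^ 7 - x₁ ^ 7) + x₀ ^ 4 x₁ ^ 4 x₂ ^ 2 + x₀ ^ 10 + 2 x₁ ^ 10`, where `P` is an ordinary
point of multiplicity `7`, which is not quasi-homogeneous, and `2 / 7 < 3 / 10` (that the discriminant
is simple for this example was checked with a computer, not in Lean).

The proof of `b(-3/d) = 0`, for a form `g₀` in the class (`g₀` is the linear combination); put `s = -3/d`: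

* `ex_main`: a functional equation gives an identity
  `b(c) g₀ ^ (K + 1) = ∑ (g₀ ∂_i v_i(c) + (c - K) (∂_i g₀) v_i(c))` with forms `v_i(c)` of the degree
  `d K + 1` which depend polynomially on `c`; so `b(c) g₀ ^ c` is the divergence of `v(c) g₀ ^ (c - K)`;
* `exact_two`: for `c = s` this gives such an identity in the two variables `t = x₀`, `x = x₂`;
  with `G = g₀(t, 1, x)` it says that `G ^ s = ∂_t (P G ^ (s - K)) + ∂_x (Q G ^ (s - K))`;
* `cop_all`, `red_all`, `red_deg`: let `g` be the product of the different factors of `G`, of the
  degree `ρ` in `x`; modulo derivatives with respect to `x` one can achieve that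
  `G ^ s = ∂_t (W G ^ s) + ∂_x (U G ^ s)` with `W, U ∈ ℂ(t)[x]`, `W` of degree `≤ ρ - 2` in `x` (first
  the order of the pole along `g = 0` is reduced, and then the degree);
* `evt_W`, `no_poles`: `W` and `U` have no poles at the good lines `t = t₀`, so that they are
  polynomials: the polar part of `W` of the highest order would give a solution of
  `(G(t₀, x) ^ s Y)' = W G(t₀, x) ^ s` on the line; if `g` has `ρ` or `ρ - 1` different roots on the
  line, then this is impossible for reasons of degree (`line_far`: with the equation for the leading
  coefficients); otherwise one uses the action of the logarithmic vector field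
  `(t - t₀) e ∂_t + b ∂_x` on such solutions, its eigenvalues are determined by the roots `c` of `g`
  on the line;
* `th`, `top_le`: in the same way at the line at infinity; so `W` and `U` have degree `≤ 2`;
* `no_linear`: if there are at least three different tangent lines at `P`, the leading coefficients
  in `x` give `W = 0`, which is impossible;
* `top_two`, `linear_form`, `field_contra`: the equation on the line at infinity implies that the
  vector field `(W, U)` comes from a linear one on `ℂ ^ 3`, a multiple of its trace-free part is a
  vector field `θ` of trace `0` which maps the form to itself. -/

namespace Pool.Agent.Results.MP_6163c8_ag.ProjectionGerms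

open MvPolynomial Pool.Agent.W574.CN Pool.Agent.W574.MO Pool.Agent.W574.HS Pool.Agent.W574.SM
  Pool.Agent.H628R4.TP Pool.Agent.Helper748.MC Pool.Agent.Helper748.TP

/-- Let `f_j` be forms of the same degree `d` in three variables, such that some linear combination `g₀
= ∑ lam_j f_j` satisfies `TameProjection d g₀`, let `b` be a polynomial which satisfies a functional
equation `b(s) F ^ s = P(s) F ^ (s + 1)`, where `P(s)` is a differential operator with formal
power series coefficients (in particular the local Bernstein-Sato polynomial of `F = ∑ y_j f_j` at
the origin), and let `Z` be the local topological zeta function of `F` at the origin. Then every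
pole of `Z` is a root of `b`. -/
theorem result {ι : Type} [Fintype ι] (f : ι → MvPolynomial (Fin 3) ℂ) (d : ℕ)
    (hf : ∀ j, (f j).IsHomogeneous d) (lam : ι → ℂ) (h : TameProjection d (lcomb f lam))
    (b : Polynomial ℂ) (hb : IsLocalBFunction (univ f) b) (Z : RatFunc ℂ)
    (hZ : ConeFormZeta f d Z) (s₀ : ℂ) (hs₀ : Z.denom.eval s₀ = 0) : b.eval s₀ = 0 := by
  classical
  have hne := exists_ne_of_lcomb (not_exact_tame (lcomb_homog hf lam) h).1
  have hb' := bfun_of_local f d hf hne b hb
  exact top_form_of f d h.pos hf hne b hb' (tame_form f d hf lam h b hb') Z hZ s₀ hs₀

end Pool.Agent.Results.MP_6163c8_ag.ProjectionGerms
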